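import Pool.Agent.Helper7.Comm.Defs2

set_option autoImplicit false

/-! # Handoff H7-Q: `chain3` and `lie_of_subst` -/

namespace Pool.Agent.Helper77.Comm

open Pool.Agent.Helper7.Comm Pool.Agent.Helper7.Comm.NC
open Pool.Agent.Helper57.Reduce

section letters

variable {X : Type} {R : Type} [Ring R]

theorem mul_letter_append [DecidableEq X] (a e : X) (f : NC X R) (s : List X) :
    (f * (letter a : NC X R)) (s ++ [e]) = if e = a then f s else 0 := by
  induction s generalizing f with
  | nil =>
    rw [List.nil_append, mul_cons, mul_nil, letter_nil]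
    by_cases h : e = a <;> simp [letter, h]
  | cons c s ih =>
    rw [List.cons_append, mul_cons, ih]
    have : (letter a : NC X R) (c :: (s ++ [e])) = 0 := by
      simp [letter]
    rw [this]; simp

theorem lie_letter_apply [DecidableEq X] (a c e : X) (f : NC X R) (s : List X) :
    (⁅(letter a : NC X R), f⁆) (c :: (s ++ [e])) =
      (if c = a then f (s ++ [e]) else 0) - (if e = a then f (c :: s) else 0) := by
  rw [Ring.lie_def, NC.sub_apply, letter_mul_cons, ← List.cons_append, mul_letter_append]

end letters

section counts

variable {K : Type} [Field K]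

/-- words in the support of `adp n` have exactly one letter `1`. -/
theorem adp_support (n : ℕ) : ∀ w : List (Fin 2), (adp n : NC (Fin 2) K) w ≠ 0 → w.count 1 = 1 := by
  induction n with
  | zero =>
    intro w hw
    by_cases h : w = [1]
    · rw [h]; rfl
    · exact absurd (by simp [adp, letter, h]) hw
  | succ n ih =>
    intro w hw
    rw [adp, Ring.lie_def, NC.sub_apply] at hw
    have : ((letter 0 * adp n : NC (Fin 2) K)) w ≠ 0 ∨ ((adp n * letter 0 : NC (Fin 2) K)) w ≠ 0 := by
      by_contra hcon
      push Not at hcon
      rw [hcon.1, hcon.2, sub_zero] at hw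
      exact hw rfl
    rcases this with h | h
    · cases w with
      | nil => exact absurd (by rw [letter_mul_nil]) h
      | cons c w =>
        rw [letter_mul_cons] at h
        by_cases hc : c = 0
        · rw [if_pos hc] at h
          rw [hc, List.count_cons_of_ne (by decide)]
          exact ih w h
        · rw [if_neg hc] at h; exact absurd rfl h
    · rcases List.eq_nil_or_concat w with rfl | ⟨w, c, rfl⟩
      · exact absurd (by rw [mul_nil, letter_nil, mul_zero]) h
      · rw [List.concat_eq_append] at h ⊢
        rw [mul_letter_append] at h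
        by_cases hc : c = 0
        · rw [if_pos hc] at h
          rw [hc, List.count_append]
          have := ih w h
          rw [this]; rfl
        · rw [if_neg hc] at h; exact absurd rfl h

theorem mul_count_zero (q : ℕ) (f g : NC (Fin 2) K) (p r : ℕ)
    (hf : ∀ w : List (Fin 2), p < w.count 1 → f w = 0)
    (hg : ∀ w : List (Fin 2), r < w.count 1 → g w = 0) (hq : p + r ≤ q)
    (w : List (Fin 2)) (hw : q < w.count 1) : (f * g) w = 0 := by
  rw [mul_apply]
  refine Finset.sum_eq_zero fun i _ => ?_
  have h := List.take_append_drop i w
  have h2 : (w.take i).count 1 + (w.drop i).count 1 = w.count 1 := by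
    rw [← List.count_append, h]
  by_cases h3 : p < (w.take i).count 1
  · rw [hf _ h3, zero_mul]
  · rw [hg _ (by omega), mul_zero]

end counts

/-- shuffle of one letter with a word, for a function constant on the rearrangements. -/
theorem sh_perm {X K : Type} [CommRing K] (c : X) : ∀ (w : List X) (f : NC X K) (κ : K),
    (∀ u : List X, u.Perm (c :: w) → f u = κ) → sh [c] w f = ((w.length : K) + 1) * κ := by
  intro w
  induction w with
  | nil =>
    intro f κ h
    rw [sh_nil_right, h [c] (List.Perm.refl _)]; simp
  | cons y w ih =>
    intro f κ h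
    rw [sh_cons_cons, sh_nil_left, D_apply, h _ (List.Perm.refl _),
      ih (D y f) κ (fun u hu => ?_)]
    · rw [List.length_cons]; push_cast; ring
    · rw [D_apply]
      apply h
      exact (hu.cons y).trans (List.Perm.swap _ _ _)

theorem chain3 {K : Type} [Field K] [CharZero K] (n : ℕ) (c : K)
    (y v V : NC (Fin 2) K) (hyL : IsLie y) (hy : ∃ N, ∀ w : List (Fin 2), N < w.length → y w = 0)
    (hy1 : ∀ w : List (Fin 2), w.length ≤ 1 → y w = 0)
    (h1 : ⁅(letter 0 : NC (Fin 2) K), v⁆ + ⁅(letter 1 : NC (Fin 2) K), y⁆ = 0)
    (h2 : ⁅(letter 0 : NC (Fin 2) K), V⁆ + c • ⁅(adp n : NC (Fin 2) K), y⁆ +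
      ⁅(letter 1 : NC (Fin 2) K), v⁆ = 0) :
    y = 0 := by
  have h1' : ∀ (c e : Fin 2) (s : List (Fin 2)),
      ((if c = 0 then v (s ++ [e]) else 0) - (if e = 0 then v (c :: s) else 0)) +
      ((if c = 1 then y (s ++ [e]) else 0) - (if e = 1 then y (c :: s) else 0)) = 0 := by
    intro c e s
    have := congrArg (fun f : NC (Fin 2) K => f (c :: (s ++ [e]))) h1
    simpa only [NC.add_apply, lie_letter_apply, NC.zero_apply] using this
  have R1 : ∀ s, v (s ++ [0]) = v (0 :: s) := fun s => by
    have := h1' 0 0 s
    simpa [sub_eq_zero] using this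
  have R5 : ∀ s, y (s ++ [1]) = y (1 :: s) := fun s => by
    have := h1' 1 1 s
    simpa [sub_eq_zero] using this
  have R3 : ∀ s, v (s ++ [1]) = y (0 :: s) := fun s => by
    have := h1' 0 1 s
    have h : v (s ++ [1]) - y (0 :: s) = 0 := by
      simpa [sub_eq_add_neg] using this
    exact sub_eq_zero.mp h
  have R4 : ∀ s, y (s ++ [0]) = v (1 :: s) := fun s => by
    have := h1' 1 0 s
    have h : y (s ++ [0]) - v (1 :: s) = 0 := by
      rw [← this]; simp; ring
    exact sub_eq_zero.mp h
  have step : ∀ q : ℕ, (∀ w : List (Fin 2), q < w.count 1 → y w = 0) →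
      ∀ w : List (Fin 2), w.count 1 = q → y w = 0 := by
    intro q hq
    -- rotation of `v` at the letter `1`
    have R2 : ∀ s : List (Fin 2), s.count 1 = q → v (s ++ [1]) = v (1 :: s) := by
      intro s hs
      have e := congrArg (fun f : NC (Fin 2) K => f (1 :: (s ++ [1]))) h2
      have hcnt : q + 1 < (1 :: (s ++ [1]) : List (Fin 2)).count 1 := by
        rw [List.count_cons_self, List.count_append, hs]; simp
      have ha : ∀ w : List (Fin 2), 1 < w.count 1 → (adp n : NC (Fin 2) K) w = 0 := by
        intro w hw
        by_contra hne
        have := adp_support (K := K) n w hne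
        omega
      have e1 : (⁅(adp n : NC (Fin 2) K), y⁆) (1 :: (s ++ [1])) = 0 := by
        rw [Ring.lie_def, NC.sub_apply,
          mul_count_zero (q + 1) _ _ 1 q ha hq (by omega) _ hcnt,
          mul_count_zero (q + 1) _ _ q 1 hq ha (by omega) _ hcnt, sub_zero]
      simp only [NC.add_apply, NC.smul_apply, NC.zero_apply, lie_letter_apply, e1] at e
      have e' : v (s ++ [1]) - v (1 :: s) = 0 := by
        simpa using e
      exact sub_eq_zero.mp e'
    -- rotation of `y`
    have Ry : ∀ (x : Fin 2) (s : List (Fin 2)), (x :: s).count 1 = q → y (s ++ [x]) = y (x :: s) := by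
      intro x s hs
      fin_cases x
      · have hs' : s.count 1 = q := by
          rw [← hs]; simp
        change y (s ++ [0]) = y (0 :: s)
        rw [R4, ← R2 s hs', R3]
      · exact R5 s
    have Rv : ∀ (x : Fin 2) (s : List (Fin 2)), (x :: s).count 1 = q + 1 →
        v (s ++ [x]) = v (x :: s) := by
      intro x s hs
      fin_cases x
      · exact R1 s
      · have hs' : s.count 1 = q := by
          have : (1 :: s : List (Fin 2)).count 1 = s.count 1 + 1 := List.count_cons_self
          have h3 : (1 :: s : List (Fin 2)).count 1 = q + 1 := hs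
          omega
        exact R2 s hs'
    -- iterated rotations
    have Ry' : ∀ (t s : List (Fin 2)), (t ++ s).count 1 = q → y (s ++ t) = y (t ++ s) := by
      intro t
      induction t with
      | nil => intro s _; simp
      | cons x t ih =>
        intro s hs
        have e1 : s ++ x :: t = (s ++ [x]) ++ t := by simp
        have c1 : (t ++ (s ++ [x])).count 1 = q := by
          rw [← hs]
          simp only [List.count_append, List.cons_append, List.count_cons, List.count_nil]
          omega
        rw [e1, ih _ c1, ← List.append_assoc, Ry x (t ++ s) (by simpa using hs)]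
        simp
    have Rv' : ∀ (t s : List (Fin 2)), (t ++ s).count 1 = q + 1 → v (s ++ t) = v (t ++ s) := by
      intro t
      induction t with
      | nil => intro s _; simp
      | cons x t ih =>
        intro s hs
        have e1 : s ++ x :: t = (s ++ [x]) ++ t := by simp
        have c1 : (t ++ (s ++ [x])).count 1 = q + 1 := by
          rw [← hs]
          simp only [List.count_append, List.cons_append, List.count_cons, List.count_nil]
          omega
        rw [e1, ih _ c1, ← List.append_assoc, Rv x (t ++ s) (by simpa using hs)]
        simp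
    have link : ∀ s t : List (Fin 2), (s ++ t).count 1 = q → v (s ++ 1 :: t) = y (s ++ 0 :: t) := by
      intro s t hst
      have c1 : ((1 :: t) ++ s).count 1 = q + 1 := by
        rw [← hst]
        simp only [List.count_append, List.cons_append, List.count_cons_self]
        omega
      rw [Rv' (1 :: t) s c1, List.cons_append, ← R4 (t ++ s)]
      have c2 : (t ++ (s ++ [0])).count 1 = q := by
        rw [← hst]
        simp only [List.count_append, List.count_cons, List.count_nil]
        simp
        omega
      rw [List.append_assoc, ← Ry' t (s ++ [0]) c2]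
      simp
    have swap0 : ∀ s r : List (Fin 2), (s ++ 0 :: 1 :: r).count 1 = q →
        y (s ++ 0 :: 1 :: r) = y (s ++ 1 :: 0 :: r) := by
      intro s r hs
      have c1 : (s ++ 1 :: r).count 1 = q := by
        rw [← hs]
        simp [List.count_append]
      rw [← link s (1 :: r) c1]
      have e : s ++ 1 :: 0 :: r = (s ++ [1]) ++ 0 :: r := by simp
      rw [e, ← link (s ++ [1]) r (by
        rw [← c1]; simp)]
      simp
    have swp : ∀ (s r : List (Fin 2)) (a b : Fin 2), (s ++ a :: b :: r).count 1 = q →
        y (s ++ a :: b :: r) = y (s ++ b :: a :: r) := by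
      intro s r a b hs
      fin_cases a <;> fin_cases b
      · rfl
      · exact swap0 s r hs
      · refine (swap0 s r ?_).symm
        rw [← hs]
        simp [List.count_append]
      · rfl
    have hperm : ∀ (u w : List (Fin 2)), u.Perm w → ∀ s : List (Fin 2), (s ++ u).count 1 = q →
        y (s ++ u) = y (s ++ w) := by
      intro u w huw
      induction huw with
      | nil => intro s _; rfl
      | cons x _ ih =>
        intro s hs
        have := ih (s ++ [x]) (by rw [← hs]; simp)
        simpa using this
      | swap a b l =>
        intro s hs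
        exact swp s l b a hs
      | trans p1 _ ih1 ih2 =>
        intro s hs
        rw [ih1 s hs]
        apply ih2
        rw [← hs, List.count_append, List.count_append, p1.count_eq]
    intro w hw
    cases w with
    | nil => exact hy1 _ (by simp)
    | cons x w =>
      by_cases hw0 : w = []
      · exact hy1 _ (by simp [hw0])
      · have hsh := ((isLie_iff y).mp hyL).2 [x] w (by simp) hw0
        rw [sh_perm x w y (y (x :: w)) (fun u hu => by
          have := hperm u (x :: w) hu [] (by
            rw [List.nil_append, hu.count_eq]; exact hw)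
          simpa using this)] at hsh
        rcases mul_eq_zero.mp hsh with h | h
        · exfalso
          have : ((w.length + 1 : ℕ) : K) = 0 := by push_cast; exact h
          exact absurd (Nat.cast_eq_zero.mp this) (by omega)
        · exact h
  obtain ⟨N, hN⟩ := hy
  have hfin : ∀ k : ℕ, ∀ w : List (Fin 2), N < w.count 1 + k → y w = 0 := by
    intro k
    induction k with
    | zero =>
      intro w hw
      exact hN w (lt_of_lt_of_le (by simpa using hw) List.count_le_length)
    | succ k ih =>
      intro w hw
      by_cases h : N < w.count 1 + k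
      · exact ih w h
      · have hk : w.count 1 + k = N := by omega
        exact step (w.count 1) (fun u hu => ih u (by omega)) w rfl
  ext w
  rw [NC.zero_apply]
  exact hfin (N + 1) w (by omega)

theorem lie_of_subst {X κ : Type} [Fintype X] [DecidableEq X] [Fintype κ] [DecidableEq κ]
    {K : Type} [Field K] [CharZero K]
    (h : κ → NC X K) (d : κ → ℕ) (hd0 : ∀ k, 0 < d k) (hd : ∀ k, IsHom (d k) (h k))
    (hL : ∀ k, IsLie (h k))
    (hind : ∀ A : κ → NC X K, ∑ k, h k * A k = 0 → ∀ k, A k = 0)
    {n : ℕ} (hn : 0 < n) {F : NC κ K} (hF : ∀ W, wt d W ≠ n → F W = 0)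
    (hz : IsLie (subst h F)) :
    IsLie F ∧ (n : K) • F = dyn d n F := by
  have h0 : ∀ k, h k [] = 0 := fun k => hd k [] (by have := hd0 k; simp; omega)
  have e := Pool.Agent.Helper59.Dynkin.dynkin h d hd0 hd hL hF hz
  have e2 : (n : K) • F = dyn d n F := by
    have e3 : subst h ((n : K) • F - dyn d n F) = 0 := by
      change substHom h h0 _ = 0
      rw [map_sub]
      change subst h ((n : K) • F) - subst h (dyn d n F) = 0
      rw [subst_smul h h0, e, sub_self]
    exact sub_eq_zero.mp (subst_injective h h0 hind _ e3)
  refine ⟨?_, e2⟩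
  have hn0 : (n : K) ≠ 0 := Nat.cast_ne_zero.mpr hn.ne'
  have hF' : F = (n : K)⁻¹ • dyn d n F := by
    rw [← e2, smul_smul, inv_mul_cancel₀ hn0, one_smul]
  rw [hF']
  refine IsLie.smul _ ?_
  unfold dyn
  exact IsLie.sum _ fun m _ => IsLie.sum _ fun v _ => IsLie.smul _ (rb_isLie _)

end Pool.Agent.Helper77.Comm
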